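import Mathlib
import Pool.Agent.TH115.GD.Defs
import Pool.Agent.TH115.ID.Defs
import Pool.Agent.R939.EI.Tw1
import Pool.Agent.K6.H71.Dick

/-!
# The Tate conjecture at 2 for almost all the Dickson covers of an elliptic surface

Let `k` be a number field, `K = k(t)`, `F = k'(t)` with `k'` a separable closure of `k`, and let
`E : y² = x (x² + a x + b)` be an elliptic curve over `K`, `a`, `b` polynomials, `d = a² - 4 b`.
`TateAtTwo` says that all the classes in `V₂ Sel(E / F)` which are fixed by the Galois group of `k` come
from `E(K)`: this is the Tate conjecture for divisors and the prime 2 on the elliptic surface over the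
projective line with generic fibre `E`.

For `ε = 1` or `ε = -1` let `D_m(t, ε)` be the Dickson polynomial of degree `m`, with
`D_m(y + ε / y, ε) = y ^ m + (ε / y) ^ m`; for `ε = 1` it is `2 T_m(t / 2)`, `T_m` the polynomial of
Chebyshev.

Theorem. Let `b` and `d` satisfy the condition `NotNorm` (not a constant times a square or times a norm
of a polynomial over a quadratic extension of `k`), and let `OnlyTrivial` hold for `(a, b)` and for
`(-2 a, d)`, the curve isogenous to `E`; all this holds for example if `b` and `d` are irreducible of odd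
degree. Let `D ≠ 0` be a polynomial (for example `D = 1`) such that `b` and `d` are not squares modulo
any prime which divides `D`. Suppose that `b d D` is prime to the polynomials `D_{2 n}(t, ε) - 2`,
`n ≥ 1`, `ε = ± 1`: this means that no root of `b d D` is of the form `ζ + ε / ζ` with a root of unity
`ζ`. Then there is a positive integer `N` such that for all `m` prime to `N`, for `ε = 1` and `ε = -1`
and for all constants `c ≠ 0` the Tate conjecture at 2 holds for the base change by `t ↦ D_m(t, ε)` of
the twist of `E` by `c D`.

The Galois groups of these covers of the line are dihedral (over the constants), not cyclic as those of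
the covers `t ↦ tᵐ`, and the geometric genus tends to infinity with `m`.

Proof. By `Pool.Agent.Results.MP_17a657_ag.TwistsByInertPrimes` it is enough that the primes `π` which
divide `b d D` remain prime. Let `α = β + ε / β` be a root of `π`. If `β` is not an `ℓ`-th power in `k(β)`
for the primes `ℓ` dividing the odd number `m`, then `y ^ m - β` is irreducible over `k(β)` (Vahlen,
Capelli), and the degrees of `k(γ)`, `γ ^ m = β`, and of `k(γ + ε / γ)`, `[k(γ) : k(γ + ε / γ)] ≤ 2`,
show that `π(D_m(t, ε))` is irreducible (`Pool.Agent.K6.H71.Dick`). A number `β`, different from zero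
and not a root of unity, is an `ℓ`-th power in `k(β)` only for finitely many `ℓ` (Northcott).
-/

namespace Pool.Agent.Results.MP_97f789_ag.DicksonCovers

open Polynomial Pool.Agent.TH115.GD Pool.Agent.R939.EI

theorem result {k k' K F : Type} [Field k] [NumberField k] [Field k'] [Algebra k k'] [Field K]
    [Algebra k[X] K] [Field F] [Algebra k'[X] F] [IsFractionRing k'[X] F] [Algebra K F]
    (hT : IsTower k k' K F) {a b D : k[X]} (hNb : NotNorm b) (hNd : NotNorm (a ^ 2 - 4 * b))
    (hO : OnlyTrivial a b) (hO' : OnlyTrivial (-2 * a) (a ^ 2 - 4 * b)) (hD : InertIn a b D)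
    (h0 : ∀ ε : k, ε ^ 2 = 1 → ∀ n : ℕ, 0 < n →
      IsCoprime (b * (a ^ 2 - 4 * b) * D) (dickson 1 ε (2 * n) - 2)) :
    ∃ N : ℕ, N ≠ 0 ∧ ∀ m : ℕ, Nat.Coprime m N → ∀ ε : k, ε ^ 2 = 1 → ∀ c : k, c ≠ 0 →
      TateAtTwo (F := F) k' (crvT (algebraMap k[X] K ((C c * (a * D)).comp (dickson 1 ε m)))
        (algebraMap k[X] K ((C (c ^ 2) * (b * D ^ 2)).comp (dickson 1 ε m)))) :=
  Pool.Agent.K6.H71.Dick.dickson_number_field hT hNb hNd hO hO' hD h0

end Pool.Agent.Results.MP_97f789_ag.DicksonCovers
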