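import Mathlib
import Pool.Agent.TH115.GD.Defs
import Pool.Agent.TH115.ID.Defs
import Pool.Agent.R939.EI.Tw1
import Pool.Agent.K6.H71.MQ.Stm

/-!
# The Tate conjecture at 2 for elliptic surfaces over multiquadratic covers of the line, for example over
# hyperelliptic curves of every genus

Let `k` be a field of characteristic zero (for example a number field), `K = k(t)`, `F = k'(t)` with `k'`
an algebraic closure of `k`, and let `E : y² = x (x² + a x + b)` be an elliptic curve over `K`, `a`, `b`
polynomials, `d = a² - 4 b`. Let `b` and `d` satisfy the condition `NotNorm` (not a constant times a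
square or times a norm of a polynomial over a quadratic extension of `k`), and let `OnlyTrivial` hold for
`(a, b)` and for `(-2 a, d)`, the curve isogenous to `E`; all this holds for example if `b` and `d` are
irreducible of odd degree. Let `h` be a polynomial of odd degree such that the primes which divide `b d`
remain prime after `t ↦ h(t)` (for example `h = t`), and let `E_h` be the base change of `E` by
`t ↦ h(t)`.

A polynomial `D ≠ 0` is called inert if `b(h)` and `d(h)` are not squares modulo any prime which divides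
`D`; so `t - c` is inert if `b(h(c))` and `d(h(c))` are not squares in `k`. (Over a number field these are
almost all `c`: the others form a thin set.) Products of inert polynomials are inert.

Theorem.

(1) Let `D₁, …, D_r` be inert polynomials such that no nonempty partial product is a constant times a
square, and `e₁, …, e_r ≠ 0` constants. Let `L = K(√(e₁ D₁), …, √(e_r D_r))`, the function field of a
geometrically irreducible curve `C` over `k`, a covering of the line with the group `(ℤ/2)^r`. Then for
all inert `D₀` and all constants `e₀ ≠ 0` the Tate conjecture at 2 holds for the elliptic surface over `C`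
whose generic fibre is the twist of `E_h` by `e₀ D₀`, over the function field `L` of `C`.

(2) In particular let `S` be a finite set of elements `c` of `k` such that `b(h(c))` and `d(h(c))` are not
squares in `k`. Then this is so for all the curves `C` with function field `K(√(e_c (t - c)), c ∈ S)`, and
if `S` is not empty for all the hyperelliptic curves `s² = e ∏ (t - c)`, `c ∈ S`, `e ≠ 0`.

The genus of `C` (the irregularity of the surface) is not bounded. In the earlier results on this problem
the base curve is the line.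

The statement of the Tate conjecture (`TateAtTwoOver`, in `Pool.Agent.K6.H71.MQ.Stm`): all the classes in
`V₂ Sel(E / F L)`, where `F L` is the function field of `C` over `k'`, that are fixed by the Galois group
of `k`, come from `E(L)`. Here the elements of the Selmer group are the continuous cocycles of
`Gal(Ω / F L)` with values in `T₂ E` which are coboundaries over all completions of `F L`; `Ω` is a
separable closure of `F`. This is the Tate conjecture for divisors on the surface at the prime 2:
`Br` of the surface over `k'` is the Tate-Shafarevich group over `F L` (Grothendieck, Artin).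

Proof. By the criterion for twists (`Pool.Agent.R939.EI.Tw1`, `Pool.Agent.K6.H71.AS2`) the statement over
`K` is true for `E_h` and for all its twists by the products of the `e_i D_i`. If `L' = L(√D)`, `D` in `K`,
and `s` is an automorphism over `F L` with `s √D = -√D`, then for a class `c` over `F L'` the corestriction
of `c`, a class of `E` over `F L`, and the corestriction of `c` as a class of the twist `E^D` have the
restrictions `c + s c` and `c - s c`, with the sum `2 c`. The corestrictions are given by explicit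
cocycles (`cor`); these are again locally trivial (`co_loc`) and their classes are fixed by the Galois
group of `L` if the class of `c` is fixed by that of `L'` (`co_inv`).
-/

namespace Pool.Agent.Results.MP_97f789_ag.MultiquadraticBases

open Polynomial Pool.Agent.TH115.GD Pool.Agent.R939.EI Pool.Agent.K6.H71.MQ

open scoped Classical

section defs

variable {k : Type} [Field k] (k' K F : Type) [Field k'] [Field K] [Algebra k[X] K] [Field F]
  [Algebra k'[X] F] [IsFractionRing k'[X] F] [Algebra K F]

/-- `δ` is a square root of the polynomial `P`. -/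
def SqrtOf (P : k[X]) (δ : Sep F) : Prop := δ ^ 2 = algebraMap K (Sep F) (algebraMap k[X] K P)

/-- The Tate conjecture at 2 holds for `y ^ 2 = x (x ^ 2 + a x + b)` over the field `L = K(δ i, i ∈ ι)`. -/
def HoldsOver (a b : k[X]) {ι : Type} (δ : ι → Sep F) : Prop :=
  TateAtTwoOver (F := F) (crvT (algebraMap k[X] K a) (algebraMap k[X] K b))
    (IntermediateField.adjoin K (Set.range δ)) k'

/-- Part (1), for the curve with the coefficients `a`, `b` (which are `a(h)`, `b(h)` in the theorem). -/
def InertBranchPoints (a b : k[X]) : Prop :=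
  ∀ (r : ℕ) (D : Fin r → k[X]) (e : Fin r → k) (δ : Fin r → Sep F),
    (∀ i, InertIn a b (D i)) → (∀ i, e i ≠ 0) →
    (∀ I : Finset (Fin r), I.Nonempty → ∀ (c : k) (g : k[X]), ∏ i ∈ I, D i ≠ C c * g ^ 2) →
    (∀ i, SqrtOf K F (C (e i) * D i) (δ i)) →
    ∀ (D₀ : k[X]) (e₀ : k), InertIn a b D₀ → e₀ ≠ 0 →
      HoldsOver k' K F (C e₀ * (a * D₀)) (C (e₀ ^ 2) * (b * D₀ ^ 2)) δ

/-- Part (2), for the curve with the coefficients `a`, `b`. -/
def RationalBranchPoints (a b : k[X]) : Prop :=
  ∀ S : Finset k, (∀ c ∈ S, ¬ IsSquare (b.eval c) ∧ ¬ IsSquare ((a ^ 2 - 4 * b).eval c)) →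
    ∀ e₀ : k, e₀ ≠ 0 →
    (∀ (e : S → k) (δ : S → Sep F), (∀ c, e c ≠ 0) →
      (∀ c, SqrtOf K F (C (e c) * (X - C (c : k))) (δ c)) →
      HoldsOver k' K F (C e₀ * a) (C (e₀ ^ 2) * b) δ) ∧
    (S.Nonempty → ∀ (e : k) (δ : Unit → Sep F), e ≠ 0 →
      SqrtOf K F (C e * ∏ c ∈ S, (X - C c)) (δ ()) →
      HoldsOver k' K F (C e₀ * a) (C (e₀ ^ 2) * b) δ)

end defs

/-- (1) multiquadratic extensions with inert branch points, (2) the case of rational branch points. -/
theorem result {k k' K F : Type} [Field k] [CharZero k] [Field k'] [Algebra k k'] [Field K]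
    [Algebra k[X] K] [Field F] [Algebra k'[X] F] [IsFractionRing k'[X] F] [Algebra K F]
    (hT : IsTower k k' K F) {a b h : k[X]}
    (hNb : NotNorm b) (hNd : NotNorm (a ^ 2 - 4 * b))
    (hO : OnlyTrivial a b) (hO' : OnlyTrivial (-2 * a) (a ^ 2 - 4 * b)) (hodd : Odd h.natDegree)
    (hi : ∀ π : k[X], Irreducible π → π ∣ b * (a ^ 2 - 4 * b) → Irreducible (π.comp h)) :
    InertBranchPoints k' K F (a.comp h) (b.comp h) ∧
      RationalBranchPoints k' K F (a.comp h) (b.comp h) := by
  have h2 : (2 : k) ≠ 0 := two_ne_zero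
  have hi' : Inert (b * (a ^ 2 - 4 * b)) h := fun π hπ hd =>
    ⟨hi π hπ hd, PerfectField.separable_of_irreducible (hi π hπ hd)⟩
  have main : ∀ {ι : Type} [Fintype ι] (D : ι → k[X]) (e : ι → k) (δ : ι → Sep F),
      (∀ i, InertIn (a.comp h) (b.comp h) (D i)) → (∀ i, e i ≠ 0) →
      (∀ I : Finset ι, I.Nonempty → ∀ (c : k) (g : k[X]), ∏ i ∈ I, D i ≠ C c * g ^ 2) →
      (∀ i, δ i ^ 2 = algebraMap K (Sep F) (algebraMap k[X] K (C (e i) * D i))) →
      ∀ (D₀ : k[X]) (e₀ : k), InertIn (a.comp h) (b.comp h) D₀ → e₀ ≠ 0 →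
        HoldsOver k' K F (C e₀ * (a.comp h * D₀)) (C (e₀ ^ 2) * (b.comp h * D₀ ^ 2)) δ := by
    intro ι _ D e δ hD he hind hδ D₀ e₀ hD₀ he₀
    refine tateAtTwoOver_of k' (tateOver_of_twists hT h2 D e he δ hδ hind (fun I c hc => ?_))
    have h3 := Pool.Agent.K6.H71.AS.tate_of_inert (F := F) hT h2 hNb hNd hO hO' hodd hi'
      (inertIn_mul hD₀ (inertIn_prod D I fun i _ => hD i)) (e := c * e₀) (mul_ne_zero hc he₀)
    have e1 : C (c * e₀) * (a.comp h * (D₀ * ∏ i ∈ I, D i)) =
        C c * ((∏ i ∈ I, D i) * (C e₀ * (a.comp h * D₀))) := by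
      rw [C_mul]
      ring
    have e2 : C ((c * e₀) ^ 2) * (b.comp h * (D₀ * ∏ i ∈ I, D i) ^ 2) =
        C (c ^ 2) * ((∏ i ∈ I, D i) ^ 2 * (C (e₀ ^ 2) * (b.comp h * D₀ ^ 2))) := by
      rw [mul_pow, C_mul]
      ring
    rw [e1, e2] at h3
    exact h3
  refine ⟨fun r D e δ hD he hind hδ => main D e δ hD he hind hδ, fun S hS e₀ he₀ => ?_⟩
  have hlin : ∀ c ∈ S, InertIn (a.comp h) (b.comp h) (X - C c) := by
    intro c hc
    refine ⟨X_sub_C_ne_zero c, fun π hπ hd r => ?_⟩
    have has : Associated π (X - C c) := hπ.associated_of_dvd (irreducible_X_sub_C c) hd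
    have key : ∀ q : k[X], ¬ IsSquare (q.eval c) → ¬ π ∣ q - r ^ 2 := by
      intro q hq hdv
      have h3 : (X - C c) ∣ q - r ^ 2 := has.symm.dvd.trans hdv
      rw [dvd_iff_isRoot, IsRoot.def, eval_sub, eval_pow, sub_eq_zero] at h3
      exact hq ⟨r.eval c, by rw [h3, pow_two]⟩
    exact ⟨key _ (hS c hc).1, key _ (hS c hc).2⟩
  have hsqf : ∀ T : Finset k, T.Nonempty → ∀ (c : k) (g : k[X]),
      ∏ x ∈ T, (X - C x) ≠ C c * g ^ 2 := by
    intro T hT c g hcg
    obtain ⟨x, hx⟩ := hT
    have hsf : Squarefree (∏ x ∈ T, (X - C x) : k[X]) :=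
      (separable_prod_X_sub_C_iff'.2 fun x _ y _ hxy => hxy).squarefree
    have h3 : IsUnit g := hsf g ⟨C c, by rw [hcg]; ring⟩
    obtain ⟨u, hu, rfl⟩ := Polynomial.isUnit_iff.1 h3
    have h4 : (∏ x ∈ T, (X - C x) : k[X]).natDegree = T.card :=
      natDegree_finsetProd_X_sub_C_eq_card T id
    rw [hcg, ← C_pow, ← C_mul, natDegree_C] at h4
    exact absurd h4.symm (Finset.card_ne_zero_of_mem hx)
  have htriv : ∀ e₀ : k, e₀ ≠ 0 →
      C e₀ * (a.comp h * 1) = C e₀ * a.comp h ∧ C (e₀ ^ 2) * (b.comp h * 1 ^ 2) =
        C (e₀ ^ 2) * b.comp h := fun e₀ _ => ⟨by ring, by ring⟩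
  refine ⟨fun e δ he hδ => ?_, fun hne e δ he hδ => ?_⟩
  · have h3 := main (fun c : S => X - C (c : k)) e δ (fun c => hlin c c.2) he (fun I hI c g hcg => ?_)
      hδ 1 e₀ (inertIn_one _ _) he₀
    · rw [(htriv e₀ he₀).1, (htriv e₀ he₀).2] at h3
      exact h3
    · refine hsqf (I.map (Function.Embedding.subtype _)) (by simpa using hI) c g ?_
      rw [Finset.prod_map]
      exact hcg
  · have h3 := main (ι := Unit) (fun _ => ∏ c ∈ S, (X - C c)) (fun _ => e) δ
      (fun _ => inertIn_prod _ S fun c hc => hlin c hc) (fun _ => he) (fun I hI c g hcg => ?_)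
      (fun _ => hδ) 1 e₀ (inertIn_one _ _) he₀
    · rw [(htriv e₀ he₀).1, (htriv e₀ he₀).2] at h3
      exact h3
    · refine hsqf S hne c g ?_
      obtain ⟨y, hy⟩ := hI
      rw [Finset.eq_singleton_iff_unique_mem.2 ⟨hy, fun _ _ => rfl⟩, Finset.prod_singleton] at hcg
      exact hcg

end Pool.Agent.Results.MP_97f789_ag.MultiquadraticBases
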