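import Mathlib
import Pool.Agent.TH115.GD.Defs
import Pool.Agent.TH115.ID.Defs
import Pool.Agent.R939.EI.Tw1
import Pool.Agent.K6.H71.Thin3

/-!
# The Tate conjecture at 2 in every pencil of covers of odd degree, outside an explicit thin set

Let `k` be a field of characteristic different from 2 (for example a number field), `K = k(t)`,
`F = k'(t)` with `k'` a separable closure of `k`, and let `E : y² = x (x² + a x + b)` be an elliptic
curve over `K`, `a`, `b` polynomials, `d = a² - 4 b`. `TateAtTwo` says that all the classes in
`V₂ Sel(E / F)` which are fixed by the Galois group of `k` come from `E(K)`: this is the Tate conjecture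
for divisors and the prime 2 on the elliptic surface over the projective line with generic fibre `E`.

Let `b` and `d` satisfy the condition `NotNorm` (not a constant times a square or times a norm of a
polynomial over a quadratic extension of `k`), and let `OnlyTrivial` hold for `(a, b)` and for
`(-2 a, d)`, the curve isogenous to `E`; all this holds for example if `b` and `d` are irreducible of
odd degree. Let `D ≠ 0` be a polynomial (for example `D = 1`) such that `b` and `d` are not squares
modulo any prime which divides `D`. In positive characteristic let the prime factors of `b d D` be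
separable.

Theorem. Let `h` be ANY polynomial of odd degree and `g` a polynomial of smaller degree which is prime to
`(b d D)(h)` (for example `g = 1`). There are finitely many polynomials `P(s, y)` over `k`, monic,
irreducible and separable of degree at least two in `y`, such that for ALL the constants `c` in `k` with
`(h + c g)' ≠ 0` (this is always true in characteristic zero) for which none of the equations
`P(c, y) = 0` has a solution `y` in `k`, and for ALL `e ≠ 0` in `k`, the Tate conjecture at 2 holds for
the base change by `t ↦ h(t) + c g(t)` of the twist of `E` by `e D`.

So in each translation class `h + k` of polynomials of odd degree, and in each pencil, the exceptional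
set is thin, over all fields of characteristic zero: if `k` is a number field, or more generally
Hilbertian, then infinitely many `c` are not exceptional, and over number fields these are almost all the
integral `c`, by the theorem of Cohen and Serre on thin sets. There is no condition on `h`, and the
geometric genus tends to infinity with the degree of `h`.

Proof. By `Pool.Agent.Results.MP_17a657_ag.TwistsByInertPrimes` it is enough that the primes `π` which
divide `b d D` remain prime and separable after `t ↦ h(t) + c g(t)`. The polynomial `π(h(t) + s g(t))` is
irreducible in `k[s, t]`: it is linearly equivalent to `π` over `k(t)`, and its content in `k[t]` is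
one. It is, up to a constant, monic in `t`. Let `f` be such a polynomial, `t_i` its zeros over
`k(s)`. For each set `S` of zeros, neither empty nor full, one of the coefficients of
`∏_S (t - t_i)` is not in `k(s)`, and `P` is its minimal equation. If `f(c, t)` is reducible, then one of
the `P(c, y)` has a zero, a coefficient of the factor of `f(c, t)` (`Pool.Agent.K6.H71.Thin`).
-/

namespace Pool.Agent.Results.MP_97f789_ag.PencilsOfCovers

open Polynomial Pool.Agent.TH115.GD Pool.Agent.R939.EI Pool.Agent.K6.H71.Thin

theorem result {k k' K F : Type} [Field k] [Field k'] [Algebra k k'] [Field K] [Algebra k[X] K]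
    [Field F] [Algebra k'[X] F] [IsFractionRing k'[X] F] [Algebra K F] (hT : IsTower k k' K F)
    (h2 : (2 : k) ≠ 0) {a b D : k[X]} (hb : b ≠ 0) (hd : a ^ 2 - 4 * b ≠ 0)
    (hNb : NotNorm b) (hNd : NotNorm (a ^ 2 - 4 * b))
    (hO : OnlyTrivial a b) (hO' : OnlyTrivial (-2 * a) (a ^ 2 - 4 * b)) (hD : InertIn a b D)
    (hsep : ∀ π : k[X], Irreducible π → π ∣ b * (a ^ 2 - 4 * b) * D → π.Separable)
    {h g : k[X]} (hodd : Odd h.natDegree) (hdeg : g.natDegree < h.natDegree)
    (hg : IsCoprime g ((b * (a ^ 2 - 4 * b) * D).comp h)) :
    ∃ E : Finset k[X][X],
      (∀ P ∈ E, P.Monic ∧ Irreducible P ∧ 2 ≤ P.natDegree ∧ derivative P ≠ 0) ∧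
      ∀ c : k, derivative (h + C c * g) ≠ 0 →
        (∀ P ∈ E, ∀ y : k, (P.map (evalRingHom c)).eval y ≠ 0) → ∀ e : k, e ≠ 0 →
          TateAtTwo (F := F) k' (crvT (algebraMap k[X] K ((C e * (a * D)).comp (h + C c * g)))
            (algebraMap k[X] K ((C (e ^ 2) * (b * D ^ 2)).comp (h + C c * g)))) :=
  special hT h2 hb hd hNb hNd hO hO' hD hsep hodd hdeg hg

end Pool.Agent.Results.MP_97f789_ag.PencilsOfCovers
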