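import Mathlib
import Pool.Agent.TH115.GD.Defs
import Pool.Agent.K6.H71.PT.Stm
import Pool.Agent.K6.H71.PT.Defs
import Pool.Agent.K6.H71.PT.Low
import Pool.Agent.K6.H71.PS.Ex
import Pool.Agent.K6.H71.PS.Low4

/-!
# The Tate conjecture at `p` for the surfaces `w ^ q = D ^ n f(x / D, t)` over all the coverings of the line
# over a number field whose Galois closure has degree a power of `p`

Let `p` be a prime, `q > 1` a power of `p`, `k` a field of characteristic zero (for example a number field),
`K = k(t)`, `k'` an algebraic closure of `k`, `F = k'(t)`, and `k₁` a field between `k` and `k'` which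
contains the `q`-th roots of unity. Let `f(x, t) = 0` be a curve over `k` which is a branch curve over `k₁`
(`IsBranchCurve`): smooth, absolutely irreducible, `f` monic in `x` of degree `n` prime to `p`, without units
besides the constants and without ideal classes of order `p` over `k₁`. A prime of `k₁[t]` is inert if `f` is
irreducible modulo this prime. Examples: `f = f₀(x) - t` for ALL monic `f₀` of degree prime to `p` (`t - c` is
inert if `f₀ - c` is irreducible), and `f = g(x) - t ^ 2` for the elliptic curves `t ^ 2 = g(x)` without
points of order `p` over `k₁`. For number fields `t - c` is inert for almost all `c` by Hilbert's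
irreducibility theorem.

Theorem. Let `D` be a polynomial over `k`, not zero, all of whose prime factors over `k₁` are inert (for
example `D = 1`), and `J` the Jacobian of the curve `w ^ q = D ^ n f(x / D, t)` over `K` (its genus is
`(q - 1)(n - 1) / 2`).

(1) Let `N / K` be a finite Galois extension whose degree is a power of `p` (any `p`-group, possibly with an
extension of the constants), unramified except above inert primes and above `t = ∞`. Then for EVERY field `L`
between `K` and `N` the Tate conjecture at `p` holds for the surface with this generic fibre over the curve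
with the function field `L`; there are no classes besides zero in `V_p Sel(J / F L)` which are fixed by the
Galois group of `L`.

(2) This holds also for all the fields `L` which are obtained from `K` by adjoining finitely many times a
`p`-th root, if `L` is unramified except above inert primes and infinity. (`L / K` need not be contained in
such a Galois extension.)

(3) Let `h_i = e_i X ^ p + c_i` be polynomials over `k` and `H = h_0 ∘ ... ∘ h_{n-1}`. The critical values of
`H` are `β_i = h_0(h_1(... h_i(0)))`, `i < n`. If `f(x, β_i)` is irreducible over `k₁` for all `i < n` then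
this holds for `L = K(z)`, where `H(z) = t`; that is, for the surface with the equation `w ^ q = f(x, H(z))`
(twisted by `D(H(z))`).

(4) The curves `f = f₀(x) - t` over ANY field `k` of characteristic zero: if the degree of `f₀` is prime to
`p - 1` or `k` contains the `q`-th roots of unity, all the conditions in (1), (2), (3) can be stated over
`k₁ = k`. For `p = 2` there is no condition: this is the Tate conjecture at 2 for the surfaces
`w ^ q = D ^ n f₀(x / D) - D ^ n t` with `q` ANY power of 2, `k` ANY number field.

(5), (6) The two families of branch curves.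

(7) Let `A` be an integrally closed domain with the field of fractions `k`, for example the ring of integers
of a number field, and `φ : A → κ` a homomorphism to a field. Let `f = f₀(x) - t`, `f₀` monic over `A` of
degree prime to `p (p - 1)` (or prime to `p` if `k` contains the `q`-th roots of unity), such that
`φ(f₀) - γ` is irreducible over `κ` for some `γ`. Let `h_i = e_i X ^ p + c_i` with `e_i ≠ 0`, `c_i` in `A`,
`φ(e_i) = 0` and `φ(c_i) = γ`. Then the condition in (3) is satisfied for all `m`: the Tate conjecture at `p`
holds for the surfaces `w ^ q = f₀(x) - h_0(h_1(... h_{m-1}(z)))` over `k`, for ALL `m` and all powers `q`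
of `p`.

(8) For example over `k = ℚ` for EVERY prime `p` which is 2 modulo 3 and EVERY power `q` of `p` the Tate
conjecture at `p` holds for the surfaces `w ^ q = x ^ 3 + x - hᵐ(z)`, where `hᵐ` is the `m`-th iterate of
`h = 2 X ^ p + 1`, for ALL `m` (and for the twists). The geometric genus of these surfaces tends to infinity
with `m`, and the fibration is not isotrivial.

The starting result `MP_677d84_ag.InertTwists` is the case `L = K`, `k₁ = k`, where the base is the line. Our
result `TwoPowerCovers` on this problem was the case `p = q = 2`, `n = 3`. In (1) the genus of the base curve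
is not bounded, and the group is any `p`-group. The
starting results `MP_ff7320_nt.UniformOverTwoExtensions` and `MP_89bcae_ag.SurfacesOverTwoCovers` treat the
Galois extensions of 2-power degree for `p = q = 2`, `k` finite and a positive proportion of all `f`, with the
arithmetic Selmer groups and by the same descent along a 2-group.

The statement of the Tate conjecture (`TateOver`, in `Pool.Agent.K6.H71.PT.Stm`): all the classes in
`V_p Sel(J / F L)`, where `F L` is the function field over `k'`, that are fixed by the Galois group of `L`,
come from `J(L)`. Here the elements of the Selmer group are the continuous cocycles of `Gal(Ω / F L)` with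
values in `T_p J` which are coboundaries over all completions of `F L`; `Ω` is a separable closure of `F`.
This is the Tate conjecture for divisors on the surface at `p`: `Br` of the surface over `k'` is the
Tate-Shafarevich group over `F L` (Grothendieck, Artin); there is a rational section, the point at infinity.

Proof. Let first `k₁ = k`. The `q`-th roots of unity act on `J`. Let `λ = 1 - ζ`, it divides `p` in the
endomorphisms, and a power of it is a multiple of `p`. For a field `L` consider the classes in
`H¹(F L, J[λ])` which are fixed by `Gal(Ω / L)` and locally trivial at the places NOT above the inert primes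
and infinity (there is no condition at these). For `L = K` all these classes are trivial: such a class is
given by an element `z` of the function field of the branch curve whose norm is a `p`-th power, with
valuations divisible by `p` outside the inert primes; there is only one prime of the branch curve above an
inert prime and its degree is prime to `p`, so the valuation there is divisible by `p` too. Let `L' / L` be a
cyclic extension of degree `p` that is ramified only above inert primes and infinity, with the group `G`. If
`M ≠ 0` is the group of these classes over `L'` then `M` is `p`-torsion and `G` is a `p`-group which acts on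
`M` locally finitely, so there is a class `≠ 0` in `M` fixed by `G`; such a class comes from `L` (this uses
`J[λ](F L') = 0`), a contradiction. As the group is a `p`-group each field `L` is reached by such steps.
Finally if there are no classes over `L` the Tate conjecture at `p` follows, layer by layer
(`Pool.Agent.K6.H71.PS`). In general let `L₁ = L k₁`. The fields `F L` and `F L₁` are the same, and a class
which is fixed by the Galois group of `L` is fixed by the Galois group of `L₁`; so it is zero. In (4) let `k₁`
be the field of the `q`-th roots of unity over `k`; its degree divides `(p - 1) q / p`, so it is prime to the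
degree of `f₀`, and the inert primes remain inert. (7): the critical values are in `A` and are mapped to `γ`
by `φ`. (8): `x ^ 3 + x + 1` is irreducible modulo 2.
-/

namespace Pool.Agent.Results.MP_97f789_ag.PrimePowerCovers

open Polynomial Pool.Agent.TH115.GD Pool.Agent.K6.H71.PT

open Pool.Agent.K6.H71.PS (graph_branch cubic_branch irr_two allOver graphOver redOver)

open scoped Classical

/-- (1) Galois extensions of `p`-power degree, (2) towers of `p`-th roots, (3) compositions of the
polynomials `e X ^ p + c`, for all the curves over `k` which are branch curves over the field `k₁` with the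
`q`-th roots of unity. -/
def Coverings (p s : ℕ) : Prop :=
  ∀ (k k₁ k' K F : Type) [Field k] [CharZero k] [Field k₁] [Field k'] [Algebra k k₁] [Algebra k k']
    [Algebra k₁ k'] [IsScalarTower k k₁ k'] [Field K] [Algebra k[X] K] [Field F] [Algebra k'[X] F]
    [IsFractionRing k'[X] F] [Algebra K F] (ζ : k₁), IsPrimitiveRoot ζ (p ^ (s + 1)) →
    IsTower k k' K F → ∀ f : k[X][X], IsBranchCurve p (overK k₁ f) →
      CoversOver k' K F k₁ p (p ^ (s + 1)) f ∧ RootTowersOver k' K F k₁ p (p ^ (s + 1)) f ∧
        CompositionsOver k' K F k₁ p (p ^ (s + 1)) f

/-- (4) The curves `f₀(x) = t`, with the conditions in (1), (2), (3) over `k`, if the degree of `f₀` is prime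
to `p - 1` or `k` contains the `q`-th roots of unity. -/
def GraphCoverings (p s : ℕ) : Prop :=
  ∀ (k k' K F : Type) [Field k] [CharZero k] [Field k'] [Algebra k k'] [Field K] [Algebra k[X] K]
    [Field F] [Algebra k'[X] F] [IsFractionRing k'[X] F] [Algebra K F], IsTower k k' K F →
    ∀ f₀ : k[X], f₀.Monic → p.Coprime f₀.natDegree →
      ((∃ ζ : k, IsPrimitiveRoot ζ (p ^ (s + 1))) ∨ (p - 1).Coprime f₀.natDegree) →
      CoversOver k' K F k p (p ^ (s + 1)) (f₀.map C - C X) ∧
        RootTowersOver k' K F k p (p ^ (s + 1)) (f₀.map C - C X) ∧
        CompositionsOver k' K F k p (p ^ (s + 1)) (f₀.map C - C X)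

/-- (5) The curves `f₀(x) = t` are branch curves. -/
def Graphs (p : ℕ) : Prop :=
  ∀ (k : Type) [Field k], (p : k) ≠ 0 → ∀ f₀ : k[X], f₀.Monic → p.Coprime f₀.natDegree →
    derivative f₀ ≠ 0 → IsBranchCurve p (f₀.map C - C X)

/-- (6) The elliptic curves `t ^ 2 = g(x)` without points of order `p` over `k` are branch curves. -/
def EllipticCurves (p : ℕ) : Prop :=
  ∀ (k : Type) [Field k] (a b c : k), (2 : k) ≠ 0 → (cubic a b c).Separable →
    (∀ P : (⟨0, a, 0, b, c⟩ : WeierstrassCurve k).toAffine.Point, p • P = 0 → P = 0) →
    IsBranchCurve p ((cubic a b c).map C - C (X ^ 2))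

/-- (7) `h_i = e_i X ^ p + c_i` with `e_i` in the kernel of `φ : A → κ` and `φ(c_i) = γ`, and `φ(f₀) - γ`
irreducible. The fields `L = K(z)` with `h_0 (h_1 (... h_{m-1}(z))) = t`. -/
def Reductions (p s : ℕ) : Prop :=
  ∀ (A κ k k' K F : Type) [CommRing A] [IsDomain A] [IsIntegrallyClosed A] [Field κ] [Field k]
    [CharZero k] [Algebra A k] [IsFractionRing A k] [Field k'] [Algebra k k'] [Field K]
    [Algebra k[X] K] [Field F] [Algebra k'[X] F] [IsFractionRing k'[X] F] [Algebra K F],
    IsTower k k' K F →
    ∀ (φ : A →+* κ) (γ : κ) (f₀ : A[X]) (e c : ℕ → A), f₀.Monic → p.Coprime f₀.natDegree →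
      ((∃ ζ : k, IsPrimitiveRoot ζ (p ^ (s + 1))) ∨ (p - 1).Coprime f₀.natDegree) →
      Irreducible (f₀.map φ - C γ) → (∀ i, e i ≠ 0 ∧ φ (e i) = 0 ∧ φ (c i) = γ) →
      ∀ (m : ℕ) (z : Sep F),
      IsRootOf (K := K) (pcomp p (fun i => algebraMap A k (e i)) (fun i => algebraMap A k (c i)) m) z →
      HoldsOver k' K F k p (p ^ (s + 1)) ((f₀.map (algebraMap A k)).map C - C X)
        (IntermediateField.adjoin K {z})

/-- (8) The surfaces `w ^ q = x ^ 3 + x - hᵐ(z)`, `h = 2 X ^ p + 1`, over the rational numbers. -/
def OverRationals (p q : ℕ) : Prop :=
  ∀ (k' K F : Type) [Field k'] [Algebra ℚ k'] [Field K] [Algebra ℚ[X] K] [Field F]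
    [Algebra k'[X] F] [IsFractionRing k'[X] F] [Algebra K F], IsTower ℚ k' K F →
    ∀ (m : ℕ) (z : Sep F), IsRootOf (K := K) (pcomp p (fun _ => (2 : ℚ)) (fun _ => 1) m) z →
      HoldsOver k' K F ℚ p q ((X ^ 3 + X : ℚ[X]).map C - C X) (IntermediateField.adjoin K {z})

/-- The main theorem, the branch curves, and the compositions with good reduction. -/
theorem result :
    (∀ p s : ℕ, p.Prime → Coverings p s ∧ GraphCoverings p s ∧ Reductions p s ∧
      (p % 3 = 2 → OverRationals p (p ^ (s + 1)))) ∧
    (∀ p : ℕ, p.Prime → Graphs p ∧ (p ≠ 3 → EllipticCurves p)) := by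
  have deg0 : ∀ (p : ℕ) (A : Type) [CommRing A] (f₀ : A[X]), p.Prime → p.Coprime f₀.natDegree →
      f₀.natDegree ≠ 0 := by
    intro p A _ f₀ hp hco h0
    rw [h0, Nat.coprime_zero_right] at hco
    exact hp.one_lt.ne' hco
  have red : ∀ p s : ℕ, p.Prime → Reductions p s := by
    intro p s hp A κ k k' K F _ _ _ _ _ _ _ _ _ _ _ _ _ _ _ _ hT φ γ f₀ e c hm hco h hi hh m z hz
    haveI : CharZero A := ⟨fun a b hab => by
      have h1 : ((a : ℕ) : k) = b := by
        rw [← map_natCast (algebraMap A k) a, hab, map_natCast]
      exact_mod_cast h1⟩
    have hd : derivative f₀ ≠ 0 := fun h0 =>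
      deg0 p A f₀ hp hco (natDegree_eq_zero_of_derivative_eq_zero h0)
    exact redOver hT hp s (Nat.cast_ne_zero.2 hp.ne_zero) φ hm hco hd h hi (fun i => (hh i).1)
      (fun i => (hh i).2.1) (fun i => (hh i).2.2) m hz
  refine ⟨fun p s hp => ⟨?_, ?_, red p s hp, fun h3 => ?_⟩, fun p hp => ⟨?_, fun h3 => ?_⟩⟩
  · intro k k₁ k' K F _ _ _ _ _ _ _ _ _ _ _ _ _ _ ζ hζ hT f hf
    exact allOver hT hp hζ hf
  · intro k k' K F _ _ _ _ _ _ _ _ _ _ hT f₀ hm hc h
    exact graphOver hT hp s (Nat.cast_ne_zero.2 hp.ne_zero) hm hc (fun h0 =>
      deg0 p k f₀ hp hc (natDegree_eq_zero_of_derivative_eq_zero h0)) h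
  · intro k' K F _ _ _ _ _ _ _ _ hT m z hz
    obtain ⟨h1, h2, h4⟩ := irr_two
    have e1 : (fun i : ℕ => algebraMap ℤ ℚ ((fun _ => (2 : ℤ)) i)) = fun _ => (2 : ℚ) := by
      funext i
      simp
    have e2 : (fun i : ℕ => algebraMap ℤ ℚ ((fun _ => (1 : ℤ)) i)) = fun _ => (1 : ℚ) := by
      funext i
      simp
    have e3 : (X ^ 3 + X : ℤ[X]).map (algebraMap ℤ ℚ) = (X ^ 3 + X : ℚ[X]) := by simp
    have hc1 : p.Coprime 3 := by
      rw [Nat.coprime_comm]
      exact (Nat.Prime.coprime_iff_not_dvd Nat.prime_three).2 (by omega)
    have hc2 : (p - 1).Coprime 3 := by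
      rw [Nat.coprime_comm]
      exact (Nat.Prime.coprime_iff_not_dvd Nat.prime_three).2 (by omega)
    have h5 := red p s hp ℤ (ZMod 2) ℚ k' K F hT (Int.castRingHom (ZMod 2)) 1
      (X ^ 3 + X) (fun _ => 2) (fun _ => 1) h1 (by rw [h2]; exact hc1) (Or.inr (by rw [h2]; exact hc2))
      h4 (fun i => ⟨by norm_num, by decide, by simp⟩) m z
    rw [e1, e2, e3] at h5
    exact h5 hz
  · intro k _ hpk f₀ hm hc hd
    exact graph_branch hp hpk hm hc hd
  · intro k _ a b c h2 hs hP
    exact cubic_branch hp h3 h2 hs hP

end Pool.Agent.Results.MP_97f789_ag.PrimePowerCovers
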